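import Mathlib
import Pool.Agent.Q77.LU.StmH
import Pool.Agent.H906R3.YM.Conc
import Pool.Agent.H906R3.YM.Int

/-!
# Project LU: basic facts on smooth functions of the link variables
-/

set_option autoImplicit false

namespace Pool.Agent.Q176.LU

open Pool.Agent.Q77.LU Pool.Agent.H906R3
open MeasureTheory Matrix Set Filter Topology
open scoped ContDiff Matrix.Norms.Frobenius

noncomputable section

variable {N n D l : ℕ} {G : Subgroup (UU N)}

lemma compG (hG : IsClosed (G : Set (UU N))) : CompactSpace G :=
  isCompact_iff_compactSpace.1 hG.isCompact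

instance secG : SecondCountableTopology G := by
  have h00 : SecondCountableTopology (UU N) := TopologicalSpace.Subtype.secondCountableTopology _
  exact TopologicalSpace.Subtype.secondCountableTopology _

/-- A Haar probability measure is invariant under right multiplications. -/
lemma right_inv {H : Type*} [Group H] [TopologicalSpace H] [IsTopologicalGroup H]
    [CompactSpace H] [MeasurableSpace H] [BorelSpace H] (μ : Measure H)
    [IsProbabilityMeasure μ] [μ.IsHaarMeasure] : μ.IsMulRightInvariant := by
  refine ⟨fun g => ?_⟩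
  have h1 : IsProbabilityMeasure (Measure.map (fun x => x * g) μ) :=
    Measure.isProbabilityMeasure_map (measurable_mul_const g).aemeasurable
  exact Measure.isHaarMeasure_eq_of_isProbabilityMeasure _ _

lemma cont_mt : Continuous (fun g : G => mt g) :=
  continuous_subtype_val.comp continuous_subtype_val

lemma cont_mts : Continuous (fun (U : Link D l → G) (e : Link D l) => mt (U e)) :=
  continuous_pi fun e => cont_mt.comp (continuous_apply e)

section
variable [NeZero l]

lemma smc {F : (Link D l → G) → ℝ} (h : IsSmooth F) : Continuous F := by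
  obtain ⟨f, hf, hF⟩ := h
  have h1 : F = fun U => f (fun e => mt (U e)) := funext hF
  rw [h1]
  exact hf.continuous.comp cont_mts

lemma sm_mul {F H : (Link D l → G) → ℝ} (h1 : IsSmooth F) (h2 : IsSmooth H) :
    IsSmooth (fun U => F U * H U) := by
  obtain ⟨f, hf, hF⟩ := h1
  obtain ⟨k, hk, hK⟩ := h2
  refine ⟨fun M => f M * k M, hf.mul hk, fun U => ?_⟩
  show F U * H U = _
  rw [hF, hK]

lemma sm_comp {F : (Link D l → G) → ℝ} (h1 : IsSmooth F) {φ : ℝ → ℝ}
    (h2 : ContDiff ℝ ∞ φ) : IsSmooth (fun U => φ (F U)) := by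
  obtain ⟨f, hf, hF⟩ := h1
  refine ⟨fun M => φ (f M), h2.comp hf, fun U => ?_⟩
  show φ (F U) = _
  rw [hF]

lemma int_of_cont (hG : IsClosed (G : Set (UU N))) [MeasurableSpace G] [BorelSpace G]
    (μ : Measure G) [IsProbabilityMeasure μ] {F : (Link D l → G) → ℝ} (hF : Continuous F) :
    Integrable F (Measure.pi fun _ : Link D l => μ) := by
  have := compG hG
  exact hF.integrable_of_hasCompactSupport (HasCompactSupport.of_compactSpace _)

/-- The same data in the form used by the helper files. -/
def fm (B : LieBasis G n) : YM.Frame G n where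
  X := B.X
  ex := B.ex
  ex_eq := B.ex_eq
  orth := B.orth
  full := B.full

/-- The abstract data. -/
def ld (B : LieBasis G n) : YM.LD G N n := (fm B).toLD

lemma shift_eq (B : LieBasis G n) (e : Link D l) (a : Fin n) (t : ℝ) (U : Link D l → G) :
    (ld B).shift e a t U = Function.update U e (B.ex a t * U e) := by
  funext e'
  unfold YM.LD.shift
  by_cases h : e' = e
  · subst h
    rw [Pi.mul_apply, Pi.mulSingle_eq_same, Function.update_self]
    rfl
  · rw [Pi.mul_apply, Pi.mulSingle_eq_of_ne h, one_mul, Function.update_of_ne h]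

lemma dlink_eq (B : LieBasis G n) (e : Link D l) (a : Fin n)
    (F : (Link D l → G) → ℝ) (hF : IsSmooth F) (U : Link D l → G) :
    dlink B e a F U = ((ld B).Dv (e, a) (⟨F, hF⟩ : YM.Sm (ld B) (Link D l))).1 U := by
  rw [YM.Dv_apply]
  unfold dlink YM.LD.dF
  simp only [shift_eq]

lemma dlink_sm (B : LieBasis G n) (e : Link D l) (a : Fin n)
    (F : (Link D l → G) → ℝ) (hF : IsSmooth F) : IsSmooth (dlink B e a F) := by
  have h1 : dlink B e a F = ((ld B).Dv (e, a) (⟨F, hF⟩ : YM.Sm (ld B) (Link D l))).1 :=
    funext fun U => dlink_eq B e a F hF U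
  rw [h1]
  exact ((ld B).Dv (e, a) (⟨F, hF⟩ : YM.Sm (ld B) (Link D l))).2

lemma dlink_mul (B : LieBasis G n) (e : Link D l) (a : Fin n)
    (F H : (Link D l → G) → ℝ) (hF : IsSmooth F) (hH : IsSmooth H) (U : Link D l → G) :
    dlink B e a (fun U => F U * H U) U = F U * dlink B e a H U + H U * dlink B e a F U := by
  have h1 := dlink_eq B e a _ (sm_mul hF hH) U
  have h2 : (⟨fun U => F U * H U, sm_mul hF hH⟩ : YM.Sm (ld B) (Link D l)) =
    (⟨F, hF⟩ : YM.Sm (ld B) (Link D l)) * ⟨H, hH⟩ := rfl
  rw [h1, h2, Derivation.leibniz, dlink_eq B e a F hF, dlink_eq B e a H hH]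
  rfl

end

end

end Pool.Agent.Q176.LU
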