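import Mathlib
import Pool.Agent.Q176.LU.Basic

/-!
# Project LU, lemma KEY: the main lower bound
-/

set_option autoImplicit false

namespace Pool.Agent.Q176.LU

open Pool.Agent.Q77.LU
open MeasureTheory Matrix Set Filter Topology
open scoped ContDiff Matrix.Norms.Frobenius

noncomputable section

/-- The angle of the localisation. -/
def thn (δ t : ℝ) : ℝ := Real.pi / 2 * Real.smoothTransition (2 * t / δ - 1)

lemma thn_sm (δ : ℝ) : ContDiff ℝ ∞ (thn δ) := by
  unfold thn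
  refine contDiff_const.mul ?_
  refine Real.smoothTransition.contDiff.comp ?_
  exact ((contDiff_const.mul contDiff_id).div_const δ).sub contDiff_const

lemma thn_small {δ t : ℝ} (hδ : 0 < δ) (h : t ≤ δ / 2) : thn δ t = 0 := by
  unfold thn
  rw [Real.smoothTransition.zero_of_nonpos, mul_zero]
  rw [sub_nonpos, div_le_one hδ]
  linarith

lemma thn_large {δ t : ℝ} (hδ : 0 < δ) (h : δ ≤ t) : thn δ t = Real.pi / 2 := by
  unfold thn
  rw [Real.smoothTransition.one_of_one_le, mul_one]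
  rw [le_sub_iff_add_le, le_div_iff₀ hδ]
  linarith

lemma csupp {P Q : Type} [Fintype P] [Fintype Q] {f : (P → ℝ) × (Q → ℝ) → ℝ} {ρ : ℝ}
    (h : ∀ x, f x ≠ 0 → nx x < ρ ^ 2) : HasCompactSupport f := by
  have hK : IsCompact ((Set.pi univ fun _ : P => Icc (-|ρ|) |ρ|) ×ˢ
      (Set.pi univ fun _ : Q => Icc (-|ρ|) |ρ|)) :=
    (isCompact_univ_pi fun _ => isCompact_Icc).prod (isCompact_univ_pi fun _ => isCompact_Icc)
  refine HasCompactSupport.of_support_subset_isCompact hK ?_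
  intro x hx
  have h1 := h x hx
  unfold nx n2 at h1
  have h2 : ∀ i, x.1 i ^ 2 ≤ ρ ^ 2 := fun i => by
    have h3 : x.1 i ^ 2 ≤ ∑ i, x.1 i ^ 2 :=
      Finset.single_le_sum (f := fun i => x.1 i ^ 2) (fun i _ => sq_nonneg _) (Finset.mem_univ i)
    have h4 : 0 ≤ ∑ i, x.2 i ^ 2 := Finset.sum_nonneg fun i _ => sq_nonneg _
    linarith
  have h2' : ∀ i, x.2 i ^ 2 ≤ ρ ^ 2 := fun i => by
    have h3 : x.2 i ^ 2 ≤ ∑ i, x.2 i ^ 2 :=
      Finset.single_le_sum (f := fun i => x.2 i ^ 2) (fun i _ => sq_nonneg _) (Finset.mem_univ i)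
    have h4 : 0 ≤ ∑ i, x.1 i ^ 2 := Finset.sum_nonneg fun i _ => sq_nonneg _
    linarith
  refine ⟨fun i _ => ?_, fun i _ => ?_⟩
  · exact abs_le.1 (sq_le_sq.1 (h2 i))
  · exact abs_le.1 (sq_le_sq.1 (h2' i))

variable {N n D l : ℕ} {G : Subgroup (UU N)}

lemma lin_add (B : LieBasis G n) (v w : Fin n → ℝ) : lin B (v + w) = lin B v + lin B w := by
  unfold lin
  rw [← Finset.sum_add_distrib]
  exact Finset.sum_congr rfl fun a _ => by rw [Pi.add_apply, add_smul]

lemma lin_smul (B : LieBasis G n) (t : ℝ) (v : Fin n → ℝ) : lin B (t • v) = t • lin B v := by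
  unfold lin
  rw [Finset.smul_sum]
  exact Finset.sum_congr rfl fun a _ => by rw [Pi.smul_apply, smul_eq_mul, mul_smul]

lemma Ad_add (B : LieBasis G n) (h : G) (v w : Fin n → ℝ) :
    Ad B h (v + w) = Ad B h v + Ad B h w := by
  funext a
  unfold Ad
  rw [Pi.add_apply, lin_add, mul_add, add_mul, mul_add, trace_add, Complex.add_re]

lemma Ad_smul (B : LieBasis G n) (h : G) (t : ℝ) (v : Fin n → ℝ) :
    Ad B h (t • v) = t • Ad B h v := by
  funext a
  unfold Ad
  rw [Pi.smul_apply, lin_smul, mul_smul_comm, smul_mul_assoc, mul_smul_comm, trace_smul,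
    Complex.smul_re]

lemma adF_add {ι : Type} (B : LieBasis G n) (h : G) (y z : ι × Fin n → ℝ) :
    adF B h (y + z) = adF B h y + adF B h z := by
  funext p
  have h1 := congrFun (Ad_add B h (fun c => y (p.1, c)) (fun c => z (p.1, c))) p.2
  exact h1

lemma adF_smul {ι : Type} (B : LieBasis G n) (h : G) (t : ℝ) (y : ι × Fin n → ℝ) :
    adF B h (t • y) = t • adF B h y := by
  funext p
  have h1 := congrFun (Ad_smul B h t (fun c => y (p.1, c))) p.2
  exact h1

/-- The adjoint action on the oscillators. -/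
def tauh [NeZero l] {B : LieBasis G n} (dc : Dec B D l) (h : G) :
    (Fin dc.M → ℝ) →ₗ[ℝ] (Fin dc.M → ℝ) where
  toFun a := fun i => ∑ p, dc.b i p * adF B h (fun q => ∑ j, a j * dc.b j q) p
  map_add' a b := by
    funext i
    have h1 : (fun q => ∑ j, (a + b) j * dc.b j q) =
        (fun q => ∑ j, a j * dc.b j q) + (fun q => ∑ j, b j * dc.b j q) := by
      funext q
      simp only [Pi.add_apply, add_mul, Finset.sum_add_distrib]
    rw [h1, adF_add, Pi.add_apply, ← Finset.sum_add_distrib]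
    exact Finset.sum_congr rfl fun p _ => by rw [Pi.add_apply, mul_add]
  map_smul' t a := by
    funext i
    have h1 : (fun q => ∑ j, (t • a) j * dc.b j q) = t • (fun q => ∑ j, a j * dc.b j q) := by
      funext q
      simp only [Pi.smul_apply, smul_eq_mul, mul_assoc, Finset.mul_sum]
    rw [h1, adF_smul]
    simp only [Pi.smul_apply, smul_eq_mul, RingHom.id_apply, Finset.mul_sum]
    exact Finset.sum_congr rfl fun p _ => by ring

theorem t_KEY (h1 : S_LLB) (h2 : S_TSM) (h3 : S_TINV) (h4 : S_PULL) (h5 : S_IMS) (h6 : S_AWAY)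
    (h7 : S_TAUO) (h8 : S_HC) (h9 : S_SYMM) : S_KEY := by
  intro N n D l _ G hG hconn B _ _ μ _ _ hnc hD dc L hch ε hε
  obtain ⟨δ1, K1, η1, hδ1, hK1, hη1, hLLB⟩ := h1 (Fin D × Fin n) (Fin dc.M) L ε hε
  have hLr := L.rpos
  obtain ⟨ρ, hρe⟩ : ∃ ρ, ρ = min δ1 (L.r / 2) := ⟨_, rfl⟩
  have hρ : 0 < ρ := by rw [hρe]; exact lt_min hδ1 (half_pos hLr)
  have hρ1 : ρ ≤ δ1 := by rw [hρe]; exact min_le_left _ _
  have hρr : ρ < L.r := by
    rw [hρe]; exact lt_of_le_of_lt (min_le_right _ _) (half_lt_self hLr)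
  obtain ⟨δ, hδ, hτ⟩ := h7 N n D l G hG hconn B hnc dc ρ hρ
  obtain ⟨hc1, hc2, hc3, hc4, hc5, hc6, hc7, hc8, hc9⟩ := h8 N n D l G hG B
  obtain ⟨hcos, hsin, K2, hK2, hims⟩ := h5 N n D l G hG B μ (fun U => thn δ (tau B U))
    (sm_comp hc4 (thn_sm δ))
  obtain ⟨η2, g2', hη2, hg2, haway⟩ := h6 N n D l G hG hD B μ (δ / 2) (half_pos hδ)
  refine ⟨K1 + K2, min η1 η2, min (min δ1 g2') 1, add_nonneg hK1 hK2, lt_min hη1 hη2,
    lt_min (lt_min hδ1 hg2) one_pos, fun U => Real.cos (thn δ (tau B U)), ?_⟩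
  intro g hg hgg F hF hFg hFc
  have hg1 : g ≤ δ1 := (hgg.trans_le ((min_le_left _ _).trans (min_le_left _ _))).le
  have hg2' : g < g2' := hgg.trans_le ((min_le_left _ _).trans (min_le_right _ _))
  have hg3 : g < 1 := hgg.trans_le (min_le_right _ _)
  have hsm := sm_mul hcos hF
  obtain ⟨p1, p2, p3, p4, p5⟩ := h4 N n D l G hG B μ dc L hch ρ hρ hρr
    (fun U => Real.cos (thn δ (tau B U)) * F U) hsm
    (fun γ U => by
      show Real.cos (thn δ (tau B (gauge γ U))) * F (gauge γ U) = _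
      rw [hc5, hFg])
    (fun z hz U => by
      show Real.cos (thn δ (tau B (centre z U))) * F (centre z U) = _
      rw [hc6 z hz, hFc z hz])
    (fun U hU => by
      refine hτ U ?_
      by_contra hlt
      rw [not_lt] at hlt
      apply hU
      show Real.cos (thn δ (tau B U)) * F U = 0
      rw [thn_large hδ hlt, Real.cos_pi_div_two, zero_mul])
  obtain ⟨f, hf⟩ : ∃ f, f = dc.pull L.r (fun U => Real.cos (thn δ (tau B U)) * F U) := ⟨_, rfl⟩
  rw [← hf] at p1 p2 p3 p4 p5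
  show CI (AdS B D) (L.T g (dc.pull L.r fun U => Real.cos (thn δ (tau B U)) * F U)) ∧
    HasCompactSupport (dc.pull L.r fun U => Real.cos (thn δ (tau B U)) * F U) ∧
    Continuous (dc.pull L.r fun U => Real.cos (thn δ (tau B U)) * F U) ∧
    ∫ C, L.T g (dc.pull L.r fun U => Real.cos (thn δ (tau B U)) * F U) C ^ 2 ≤
      ∫ U, F U ^ 2 ∂(Measure.pi fun _ : Link D l => μ) ∧ _
  rw [← hf]
  have hcs := csupp p2
  obtain ⟨t1, t2, t3, t4, t5⟩ := h2 _ _ L g hg f p1 hcs
  have e1 := hLLB g hg hg1 f p1 fun x hx =>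
    (p2 x hx).trans_le (pow_le_pow_left₀ hρ.le hρ1 2)
  have e2 := (p5 g hg).1
  have e3 := hims g hg F hF
  have e4 := haway g hg hg2' (fun U => Real.sin (thn δ (tau B U)) * F U) (sm_mul hsin hF)
    (fun U hU => by
      by_contra hlt
      rw [not_le] at hlt
      apply hU
      show Real.sin (thn δ (tau B U)) * F U = 0
      rw [thn_small hδ hlt.le, Real.sin_zero, zero_mul])
  have e0 : 1 / 2 * tsq (hess B (fun _ : Link D l => (1 : G))) = L.e0 := by
    unfold Loc.e0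
    rw [hch.om, dc.sum]
  rw [e0] at e4
  have i1 : ∫ U, F U ^ 2 ∂(Measure.pi fun _ : Link D l => μ) =
      ∫ U, (Real.cos (thn δ (tau B U)) * F U) ^ 2 ∂(Measure.pi fun _ : Link D l => μ) +
      ∫ U, (Real.sin (thn δ (tau B U)) * F U) ^ 2 ∂(Measure.pi fun _ : Link D l => μ) := by
    rw [← integral_add]
    · refine integral_congr_ae (Eventually.of_forall fun U => ?_)
      show F U ^ 2 = (Real.cos (thn δ (tau B U)) * F U) ^ 2 +
        (Real.sin (thn δ (tau B U)) * F U) ^ 2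
      have := Real.sin_sq_add_cos_sq (thn δ (tau B U))
      linear_combination (-F U ^ 2) * this
    · exact int_of_cont hG μ ((smc (sm_mul hcos hF)).pow 2)
    · exact int_of_cont hG μ ((smc (sm_mul hsin hF)).pow 2)
  have i2 : 0 ≤ ∫ U, (Real.sin (thn δ (tau B U)) * F U) ^ 2
      ∂(Measure.pi fun _ : Link D l => μ) := integral_nonneg fun U => sq_nonneg _
  have i3 : 0 ≤ ∫ U, (Real.cos (thn δ (tau B U)) * F U) ^ 2
      ∂(Measure.pi fun _ : Link D l => μ) := integral_nonneg fun U => sq_nonneg _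
  obtain ⟨m, hm⟩ : ∃ m, m = ∫ U, F U ^ 2 ∂(Measure.pi fun _ : Link D l => μ) := ⟨_, rfl⟩
  obtain ⟨a, ha⟩ : ∃ a, a = ∫ U, (Real.cos (thn δ (tau B U)) * F U) ^ 2
      ∂(Measure.pi fun _ : Link D l => μ) := ⟨_, rfl⟩
  obtain ⟨b, hb⟩ : ∃ b, b = ∫ U, (Real.sin (thn δ (tau B U)) * F U) ^ 2
      ∂(Measure.pi fun _ : Link D l => μ) := ⟨_, rfl⟩
  rw [← p4, ← ha] at e1 t5
  simp only [← hb] at e4
  rw [← hm, ← ha, ← hb] at i1
  rw [← ha] at i3
  rw [← hb] at i2
  rw [← hm] at e3 ⊢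
  obtain ⟨t, ht⟩ : ∃ t, t = ∫ C, L.T g f C ^ 2 := ⟨_, rfl⟩
  rw [← ht] at e1 t5 ⊢
  refine ⟨⟨t1, t2, ?_⟩, hcs, p1.continuous, by linarith, ?_⟩
  · rintro σ ⟨h, rfl⟩ x
    refine (h3 _ _ L (adF B h) (tauh dc h) (fun t x => adF_smul B h t x) (fun a => ?_)
      (fun a => ?_) (fun C a => hch.Jinv h (C, a)) g hg).1 f (fun C a => p3 h (C, a)) x
    · exact (h9 N n D l G hG B dc h (0, a)).2.2.1
    · rw [hch.om]
      exact (h9 N n D l G hG B dc h (0, a)).2.2.2.1
  · have k1 : min η1 η2 * (m - t) ≤ η1 * (a - t) + η2 * b := by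
      have k2 : min η1 η2 * (a - t) ≤ η1 * (a - t) :=
        mul_le_mul_of_nonneg_right (min_le_left _ _) (by linarith)
      have k3 : min η1 η2 * b ≤ η2 * b := mul_le_mul_of_nonneg_right (min_le_right _ _) i2
      rw [i1]
      linarith
    have k4 : K1 * g * a ≤ K1 * g * m :=
      mul_le_mul_of_nonneg_left (by linarith) (mul_nonneg hK1 hg.le)
    have k5 : K2 * g ^ 2 * m ≤ K2 * g * m := by
      refine mul_le_mul_of_nonneg_right (mul_le_mul_of_nonneg_left ?_ hK2) (by linarith)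
      nlinarith
    have k6 : L.e0 * m = L.e0 * a + L.e0 * b := by rw [i1]; ring
    nlinarith [e1, e2, e3, e4, k1, k4, k5, k6]

end

end Pool.Agent.Q176.LU
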