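import Mathlib
import Pool.Agent.Q176.LU.Basic

/-!
# Project LU, lemma LOC, part A: doubling of the Haar measure, convolutions
-/

set_option autoImplicit false

namespace Pool.Agent.Q176.LU

open Pool.Agent.Q77.LU Pool.Agent.H906R3
open MeasureTheory Matrix Set Filter Topology
open scoped ContDiff Matrix.Norms.Frobenius

noncomputable section

/-- A Haar probability measure on a compact group is invariant under the inversion. -/
lemma inv_invt {H : Type*} [Group H] [TopologicalSpace H] [IsTopologicalGroup H]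
    [CompactSpace H] [MeasurableSpace H] [BorelSpace H] (μ : Measure H)
    [IsProbabilityMeasure μ] [μ.IsHaarMeasure] : μ.IsInvInvariant := by
  have h0 := right_inv μ
  have h1 : IsProbabilityMeasure μ.inv :=
    Measure.isProbabilityMeasure_map measurable_inv.aemeasurable
  refine ⟨?_⟩
  have h2 := Measure.isMulInvariant_eq_smul_of_compactSpace μ.inv μ
  have h3 : μ.inv univ = (Measure.haarScalarFactor μ.inv μ • μ) univ := by rw [← h2]
  rw [measure_univ, Measure.smul_apply, measure_univ, ENNReal.smul_def, smul_eq_mul, mul_one] at h3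
  have h4 : Measure.haarScalarFactor μ.inv μ = 1 := by exact_mod_cast h3.symm
  rw [h2, h4, one_smul]

/-- Doubling property. -/
lemma doubling {H E : Type*} [Group H] [MeasurableSpace H] [MeasurableMul H] (π : Measure H)
    [π.IsMulLeftInvariant] [NormedAddCommGroup E] [NormedSpace ℝ E] [FiniteDimensional ℝ E]
    (ι : H → E) (hι : ∀ x y z, ‖ι (x * y) - ι (x * z)‖ = ‖ι y - ι z‖) (ρ : ℝ) (hρ : 0 < ρ) :
    π {h | ‖ι h - ι 1‖ ≤ ρ} ≤
      ((5 ^ Module.finrank ℝ E : ℕ) : ENNReal) * π {h | ‖ι h - ι 1‖ ≤ ρ / 2} := by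
  classical
  obtain ⟨P, hP⟩ : ∃ P : Finset H → Prop, ∀ s, P s ↔ (∀ x ∈ s, ‖ι x - ι 1‖ ≤ ρ) ∧
      ∀ x ∈ s, ∀ y ∈ s, x ≠ y → ρ / 2 ≤ ‖ι x - ι y‖ := ⟨_, fun _ => Iff.rfl⟩
  have hcard : ∀ s, P s → s.card ≤ 5 ^ Module.finrank ℝ E := by
    intro s hs
    rw [hP] at hs
    obtain ⟨hs1, hs2⟩ := hs
    have hinj : Set.InjOn (fun x => (2 / ρ) • (ι x - ι 1)) (s : Set H) := by
      intro x hx y hy hxy
      by_contra hne
      have h1 := hs2 x hx y hy hne
      have h2 : ι x - ι 1 = ι y - ι 1 := smul_right_injective E (by positivity) hxy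
      have h3 : ι x = ι y := by simpa using h2
      rw [h3, sub_self, norm_zero] at h1
      linarith
    rw [← Finset.card_image_of_injOn hinj]
    refine Besicovitch.card_le_of_separated _ ?_ ?_
    · intro c hc
      obtain ⟨x, hx, rfl⟩ := Finset.mem_image.1 hc
      rw [norm_smul, Real.norm_of_nonneg (by positivity)]
      have h1 := hs1 x hx
      rw [div_mul_eq_mul_div, div_le_iff₀ hρ]
      linarith
    · intro c hc d hd hcd
      obtain ⟨x, hx, rfl⟩ := Finset.mem_image.1 hc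
      obtain ⟨y, hy, rfl⟩ := Finset.mem_image.1 hd
      have hxy : x ≠ y := fun h => hcd (by rw [h])
      have h1 := hs2 x hx y hy hxy
      rw [← smul_sub, sub_sub_sub_cancel_right, norm_smul, Real.norm_of_nonneg (by positivity),
        div_mul_eq_mul_div, le_div_iff₀ hρ]
      linarith
  have hne : {k | ∃ s, P s ∧ s.card = k}.Nonempty :=
    ⟨0, ∅, (hP _).2 ⟨by simp, by simp⟩, Finset.card_empty⟩
  have hbd : BddAbove {k | ∃ s, P s ∧ s.card = k} := by
    refine ⟨5 ^ Module.finrank ℝ E, ?_⟩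
    rintro k ⟨s, hs, rfl⟩
    exact hcard s hs
  obtain ⟨s, hs, hsc⟩ := Nat.sSup_mem hne hbd
  have hmax : ∀ t, P t → t.card ≤ s.card := fun t ht => by
    rw [hsc]; exact le_csSup hbd ⟨t, ht, rfl⟩
  obtain ⟨hs1, hs2⟩ := (hP s).1 hs
  have hcov : {h | ‖ι h - ι 1‖ ≤ ρ} ⊆
      ⋃ y ∈ s, (fun h => y⁻¹ * h) ⁻¹' {h | ‖ι h - ι 1‖ ≤ ρ / 2} := by
    intro x hx
    by_cases hxs : x ∈ s
    · rw [mem_iUnion₂]
      refine ⟨x, hxs, ?_⟩
      show ‖ι (x⁻¹ * x) - ι 1‖ ≤ ρ / 2
      rw [inv_mul_cancel, sub_self, norm_zero]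
      positivity
    have h1 : ∃ y ∈ s, ‖ι x - ι y‖ < ρ / 2 := by
      by_contra hcon
      push Not at hcon
      have h2 : P (insert x s) := by
        rw [hP]
        refine ⟨fun z hz => ?_, fun z hz w hw hzw => ?_⟩
        · rcases Finset.mem_insert.1 hz with rfl | hz
          · exact hx
          · exact hs1 z hz
        · rcases Finset.mem_insert.1 hz with hz1 | hz1
          · rcases Finset.mem_insert.1 hw with hw1 | hw1
            · exact absurd (hz1.trans hw1.symm) hzw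
            · rw [hz1]; exact hcon w hw1
          · rcases Finset.mem_insert.1 hw with hw1 | hw1
            · rw [hw1, norm_sub_rev]; exact hcon z hz1
            · exact hs2 z hz1 w hw1 hzw
      have h3 := hmax _ h2
      rw [Finset.card_insert_of_notMem hxs] at h3
      omega
    obtain ⟨y, hy, hxy⟩ := h1
    rw [mem_iUnion₂]
    refine ⟨y, hy, ?_⟩
    show ‖ι (y⁻¹ * x) - ι 1‖ ≤ ρ / 2
    have h2 := hι y⁻¹ x y
    rw [inv_mul_cancel] at h2
    rw [h2]
    exact hxy.le
  calc π {h | ‖ι h - ι 1‖ ≤ ρ}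
      ≤ π (⋃ y ∈ s, (fun h => y⁻¹ * h) ⁻¹' {h | ‖ι h - ι 1‖ ≤ ρ / 2}) := measure_mono hcov
    _ ≤ ∑ y ∈ s, π ((fun h => y⁻¹ * h) ⁻¹' {h | ‖ι h - ι 1‖ ≤ ρ / 2}) :=
        measure_biUnion_finset_le _ _
    _ = ∑ y ∈ s, π {h | ‖ι h - ι 1‖ ≤ ρ / 2} :=
        Finset.sum_congr rfl fun y _ => measure_preimage_mul π _ _
    _ = (s.card : ENNReal) * π {h | ‖ι h - ι 1‖ ≤ ρ / 2} := by
        rw [Finset.sum_const, nsmul_eq_mul]
    _ ≤ _ := by
        gcongr
        exact hcard s hs

variable {N n D l : ℕ} {G : Subgroup (UU N)}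

/-! ### the Frobenius norm -/

lemma fro2_eq (M : Mt N) : ‖M‖ ^ 2 = fro2 M := by
  have h1 : fro2 M = ∑ i, ∑ j, ‖M i j‖ ^ 2 := by
    unfold fro2
    rw [trace, Complex.re_sum, Finset.sum_comm]
    refine Finset.sum_congr rfl fun j _ => ?_
    rw [diag_apply, mul_apply, Complex.re_sum]
    refine Finset.sum_congr rfl fun i _ => ?_
    rw [conjTranspose_apply]
    have h2 : star (M i j) * M i j = ((‖M i j‖ ^ 2 : ℝ) : ℂ) := by
      rw [Complex.star_def, Complex.conj_mul']
      push_cast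
      rfl
    rw [h2, Complex.ofReal_re]
  rw [h1, frobenius_norm_def, ← Real.sqrt_eq_rpow, Real.sq_sqrt]
  · simp only [Real.rpow_two]
  · exact Finset.sum_nonneg fun i _ => Finset.sum_nonneg fun j _ => by positivity

lemma fro2_nonneg (M : Mt N) : 0 ≤ fro2 M := by rw [← fro2_eq]; positivity

lemma mt_unit (g : G) : mt g * (mt g)ᴴ = 1 := Matrix.mem_unitaryGroup_iff.1 (g : UU N).2

lemma mt_unit' (g : G) : (mt g)ᴴ * mt g = 1 := mul_eq_one_comm.1 (mt_unit g)

lemma mt_mul (g h : G) : mt (g * h) = mt g * mt h := rfl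

lemma mt_one : mt (1 : G) = 1 := rfl

lemma mt_inv (g : G) : mt g⁻¹ = (mt g)ᴴ := rfl

lemma fro2_left (g : G) (M : Mt N) : fro2 (mt g * M) = fro2 M := by
  unfold fro2
  rw [conjTranspose_mul]
  have h1 : Mᴴ * (mt g)ᴴ * (mt g * M) = Mᴴ * M := by
    rw [mul_assoc, ← mul_assoc (mt g)ᴴ, mt_unit', one_mul]
  rw [h1]

lemma fro2_right (g : G) (M : Mt N) : fro2 (M * mt g) = fro2 M := by
  unfold fro2
  rw [conjTranspose_mul]
  have h1 : trace ((mt g)ᴴ * Mᴴ * (M * mt g)) = trace (Mᴴ * M) := by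
    rw [trace_mul_comm, mul_assoc, ← mul_assoc (mt g), mt_unit, one_mul, trace_mul_comm]
  rw [h1]

lemma norm_left (g : G) (M : Mt N) : ‖mt g * M‖ = ‖M‖ := by
  have h1 := fro2_left g M
  rw [← fro2_eq, ← fro2_eq] at h1
  exact (sq_eq_sq₀ (norm_nonneg _) (norm_nonneg _)).1 h1

lemma norm_right (g : G) (M : Mt N) : ‖M * mt g‖ = ‖M‖ := by
  have h1 := fro2_right g M
  rw [← fro2_eq, ← fro2_eq] at h1
  exact (sq_eq_sq₀ (norm_nonneg _) (norm_nonneg _)).1 h1

lemma fro_cs (A M : Mt N) : ((trace (Aᴴ * M)).re) ^ 2 ≤ fro2 A * fro2 M := by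
  refine YM.sq_le_of_forall fun t => ?_
  have h1 := fro2_nonneg (A + t • M)
  have h2 : fro2 (A + t • M) = fro2 A + 2 * t * (trace (Aᴴ * M)).re + t ^ 2 * fro2 M := by
    unfold fro2
    have h3 : (trace (Mᴴ * A)).re = (trace (Aᴴ * M)).re := by
      have h4 : (Mᴴ * A) = (Aᴴ * M)ᴴ := by rw [conjTranspose_mul, conjTranspose_conjTranspose]
      rw [h4, trace_conjTranspose, Complex.star_def, Complex.conj_re]
    have h5 : (A + t • M)ᴴ = Aᴴ + t • Mᴴ := by
      rw [conjTranspose_add]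
      congr 1
      ext i j
      simp [conjTranspose_apply]
    rw [h5, add_mul, mul_add, mul_add, trace_add, trace_add, trace_add, smul_mul_assoc,
      mul_smul_comm, smul_mul_assoc, mul_smul_comm, trace_smul, trace_smul, trace_smul, trace_smul,
      Complex.add_re, Complex.add_re, Complex.add_re, Complex.smul_re, Complex.smul_re,
      Complex.smul_re, Complex.smul_re, h3]
    simp only [smul_eq_mul]
    ring
  rw [h2] at h1
  exact h1

lemma fro2_sub_one (g : G) : fro2 (mt g - 1) = 2 * N - 2 * (trace (mt g)).re := by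
  unfold fro2
  rw [conjTranspose_sub, conjTranspose_one, sub_mul, mul_sub, mul_sub, mt_unit', one_mul, mul_one,
    one_mul, trace_sub, trace_sub, trace_sub, Complex.sub_re, Complex.sub_re, Complex.sub_re,
    trace_conjTranspose, Complex.star_def, Complex.conj_re, trace_one, Fintype.card_fin,
    Complex.natCast_re]
  ring

end

end Pool.Agent.Q176.LU
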