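import Mathlib
import Pool.Agent.Q176.LU.LocA

/-!
# Project LU, lemma LOC, part B: the localisation function
-/

set_option autoImplicit false

namespace Pool.Agent.Q176.LU

open Pool.Agent.Q77.LU Pool.Agent.H906R3
open MeasureTheory Matrix Set Filter Topology
open scoped ContDiff Matrix.Norms.Frobenius

noncomputable section

variable {N n D l : ℕ} {G : Subgroup (UU N)} [NeZero l]

/-- The squared distance to `1`. -/
def rr (W : Link D l → G) : ℝ := ∑ e, (2 * N - 2 * (trace (mt (W e))).re)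

lemma rr_eq (W : Link D l → G) : rr W = ∑ e, ‖mt (W e) - 1‖ ^ 2 := by
  unfold rr
  exact Finset.sum_congr rfl fun e _ => by rw [fro2_eq, fro2_sub_one]

lemma rr_nonneg (W : Link D l → G) : 0 ≤ rr W := by
  rw [rr_eq]; exact Finset.sum_nonneg fun _ _ => sq_nonneg _

lemma rr_ge (W : Link D l → G) (e : Link D l) : ‖mt (W e) - 1‖ ^ 2 ≤ rr W := by
  rw [rr_eq]
  exact Finset.single_le_sum (f := fun e => ‖mt (W e) - 1‖ ^ 2) (fun _ _ => sq_nonneg _)
    (Finset.mem_univ e)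

/-- the extension of `rr` -/
def rrT (N D l : ℕ) [NeZero l] : (Link D l → Mt N) →L[ℝ] ℝ :=
  ∑ e : Link D l, (YM.ip (1 : Mt N)).comp (ContinuousLinearMap.proj e)

lemma rrT_apply (M : Link D l → Mt N) : rrT N D l M = ∑ e, (trace (M e)).re := by
  unfold rrT
  rw [_root_.sum_apply]
  refine Finset.sum_congr rfl fun e _ => ?_
  rw [ContinuousLinearMap.comp_apply, ContinuousLinearMap.proj_apply, YM.ip_apply,
    conjTranspose_one, one_mul]

lemma rr_T (W : Link D l → G) :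
    rr W = (∑ _e : Link D l, 2 * (N : ℝ)) - 2 * rrT N D l (fun e => mt (W e)) := by
  rw [rrT_apply, Finset.mul_sum, ← Finset.sum_sub_distrib]
  rfl

lemma rr_sm : IsSmooth (rr : (Link D l → G) → ℝ) := by
  refine ⟨fun M => (∑ _e : Link D l, 2 * (N : ℝ)) - 2 * rrT N D l M, ?_, fun U => rr_T U⟩
  exact contDiff_const.sub (contDiff_const.mul (rrT N D l).contDiff)

lemma rr_dlink (B : LieBasis G n) (e : Link D l) (a : Fin n) (W : Link D l → G) :
    dlink B e a rr W = -2 * (trace (B.X a * mt (W e))).re := by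
  have h1 : dlink B e a rr W = deriv (fun t => rr ((ld B).shift e a t W)) 0 := by
    unfold dlink
    simp only [shift_eq]
  rw [h1]
  have h2 : (fun t => rr ((ld B).shift e a t W)) = fun t => (∑ _e : Link D l, 2 * (N : ℝ)) -
      2 * rrT N D l ((ld B).mat ((ld B).shift e a t W)) := by
    funext t
    exact rr_T _
  rw [h2]
  have h3 : HasDerivAt (fun t => rrT N D l ((ld B).mat ((ld B).shift e a t W)))
      (rrT N D l ((ld B).vf e a ((ld B).mat W))) 0 :=
    (rrT N D l).hasFDerivAt.comp_hasDerivAt (0 : ℝ) ((ld B).hasDerivAt_mat e a W)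
  rw [((h3.const_mul 2).const_sub _).deriv, rrT_apply]
  have h4 : ∑ e', (trace ((ld B).vf e a ((ld B).mat W) e')).re =
      (trace (B.X a * mt (W e))).re := by
    rw [Finset.sum_eq_single e]
    · unfold YM.LD.vf
      rw [Pi.single_eq_same]
      rfl
    · intro e' _ he'
      unfold YM.LD.vf
      rw [Pi.single_eq_of_ne he', trace_zero, Complex.zero_re]
    · intro h
      exact absurd (Finset.mem_univ e) h
  rw [h4]
  ring

lemma tr_X (B : LieBasis G n) (a : Fin n) : (trace (B.X a)).re = 0 := by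
  have h1 : (B.X a)ᴴ = -B.X a := (fm B).skewX a
  have h2 : (trace ((B.X a)ᴴ)).re = (trace (B.X a)).re := by
    rw [trace_conjTranspose, Complex.star_def, Complex.conj_re]
  rw [h1, trace_neg, Complex.neg_re] at h2
  linarith

lemma rr_dlink_sq (B : LieBasis G n) (e : Link D l) (a : Fin n) (W : Link D l → G) :
    dlink B e a rr W ^ 2 ≤ 4 * rr W := by
  rw [rr_dlink]
  have h1 : (trace (B.X a * mt (W e))).re = (trace (B.X a * (mt (W e) - 1))).re := by
    rw [mul_sub, mul_one, trace_sub, Complex.sub_re, tr_X, sub_zero]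
  have h2 := fro_cs (-B.X a) (mt (W e) - 1)
  have h3 : (-B.X a)ᴴ = B.X a := by
    have h4 : (B.X a)ᴴ = -B.X a := (fm B).skewX a
    rw [conjTranspose_neg, h4, neg_neg]
  have h5 : fro2 (-B.X a) = 1 := by
    have h6 := B.orth a a
    rw [if_pos rfl] at h6
    unfold fro2
    rw [conjTranspose_neg, neg_mul_neg]
    exact h6
  rw [h3, h5, one_mul] at h2
  rw [h1]
  have h7 := rr_ge W e
  rw [fro2_eq] at h7
  nlinarith

lemma dlink_comp (B : LieBasis G n) (e : Link D l) (a : Fin n) {F : (Link D l → G) → ℝ}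
    (hF : IsSmooth F) {φ : ℝ → ℝ} (hφ : ContDiff ℝ ∞ φ) (U : Link D l → G) :
    dlink B e a (fun U => φ (F U)) U = deriv φ (F U) * dlink B e a F U := by
  have h0 := YM.hasDerivAt_dF (L := ld B) (F := F) hF e a U 0
  rw [(ld B).shift_zero] at h0
  have h1 : dlink B e a F U = (ld B).dF e a F U := by
    unfold dlink YM.LD.dF
    simp only [shift_eq]
  have h2 : dlink B e a (fun U => φ (F U)) U =
      deriv (fun t => φ (F ((ld B).shift e a t U))) 0 := by
    unfold dlink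
    simp only [shift_eq]
  rw [h2, h1]
  have h3 : HasDerivAt φ (deriv φ (F U)) (F ((ld B).shift e a 0 U)) := by
    rw [(ld B).shift_zero]
    exact ((hφ.differentiable (by simp)) _).hasDerivAt
  exact (h3.comp (0 : ℝ) h0).deriv

lemma dlink_const_mul (B : LieBasis G n) (e : Link D l) (a : Fin n) (c : ℝ)
    (F : (Link D l → G) → ℝ) (U : Link D l → G) :
    dlink B e a (fun U => c * F U) U = c * dlink B e a F U := by
  unfold dlink
  exact deriv_const_mul_field c

lemma cutb_sm : ContDiff ℝ ∞ cutb := by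
  unfold cutb
  exact Real.smoothTransition.contDiff.comp (contDiff_const.sub (contDiff_const.mul contDiff_id))

lemma cutb_one {t : ℝ} (h : t ≤ 1 / 2) : cutb t = 1 :=
  Real.smoothTransition.one_of_one_le (by linarith)

lemma cutb_zero {t : ℝ} (h : 1 ≤ t) : cutb t = 0 :=
  Real.smoothTransition.zero_of_nonpos (by linarith)

lemma cutb_deriv : ∃ C : ℝ, 0 ≤ C ∧ (∀ t, 0 ≤ t → t ≤ 1 → |deriv cutb t| ≤ C) ∧
    ∀ t, 1 < t → deriv cutb t = 0 := by
  have h1 : Continuous (deriv cutb) := cutb_sm.continuous_deriv (by simp)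
  obtain ⟨C, hC⟩ := (isCompact_Icc (a := (0 : ℝ)) (b := 1)).exists_bound_of_continuousOn
    h1.continuousOn
  refine ⟨C, (abs_nonneg _).trans (hC 0 ⟨le_rfl, zero_le_one⟩), fun t h0 h1 => hC t ⟨h0, h1⟩,
    fun t ht => ?_⟩
  have h2 : cutb =ᶠ[𝓝 t] fun _ => 0 := by
    filter_upwards [lt_mem_nhds ht] with s hs
    exact cutb_zero hs.le
  rw [h2.deriv_eq, deriv_const]

/-- The configuration as a point of a Euclidean space. -/
def iw (W : Link D l → G) : PiLp 2 (fun _ : Link D l => Mt N) :=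
  WithLp.toLp 2 (fun e => mt (W e))

lemma iw_norm (U V : Link D l → G) : ‖iw U - iw V‖ ^ 2 = ∑ e, ‖mt (U e) - mt (V e)‖ ^ 2 := by
  rw [PiLp.norm_sq_eq_of_L2]
  rfl

lemma iw_inv (x y z : Link D l → G) : ‖iw (x * y) - iw (x * z)‖ = ‖iw y - iw z‖ := by
  rw [← sq_eq_sq₀ (norm_nonneg _) (norm_nonneg _), iw_norm, iw_norm]
  refine Finset.sum_congr rfl fun e _ => ?_
  rw [Pi.mul_apply, Pi.mul_apply, mt_mul, mt_mul, ← mul_sub, norm_left]

lemma iw_rr (W : Link D l → G) : ‖iw W - iw (1 : Link D l → G)‖ ^ 2 = rr W := by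
  rw [iw_norm, rr_eq]
  rfl

/-- The function of the localisation. -/
lemma exists_b (hG : IsClosed (G : Set (UU N))) (B : LieBasis G n) [MeasurableSpace G]
    [BorelSpace G] (μ : Measure G) [IsProbabilityMeasure μ] [μ.IsHaarMeasure] :
    ∃ K : ℝ, 0 ≤ K ∧ ∀ ρ : ℝ, 0 < ρ → ∃ b : (Link D l → G) → ℝ, IsSmooth b ∧
      (∀ W, b W ≠ 0 → ∀ e, ‖mt (W e) - 1‖ ≤ ρ) ∧
      ∫ W, b W ^ 2 ∂(Measure.pi fun _ : Link D l => μ) = 1 ∧
      ∀ e a, ∫ W, dlink B e a b W ^ 2 ∂(Measure.pi fun _ : Link D l => μ) ≤ K / ρ ^ 2 := by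
  have := compG hG
  obtain ⟨C, hC, hC1, hC2⟩ := cutb_deriv
  obtain ⟨d, hd⟩ : ∃ d : ℕ, d = 5 ^ Module.finrank ℝ (PiLp 2 (fun _ : Link D l => Mt N)) :=
    ⟨_, rfl⟩
  refine ⟨4 * C ^ 2 * d, by positivity, fun ρ hρ => ?_⟩
  obtain ⟨π, hπ⟩ : ∃ π : Measure (Link D l → G), π = Measure.pi fun _ : Link D l => μ :=
    ⟨_, rfl⟩
  have hπl : π.IsMulLeftInvariant := by rw [hπ]; infer_instance
  have hπp : IsProbabilityMeasure π := by rw [hπ]; infer_instance
  have hπo : π.IsOpenPosMeasure := by rw [hπ]; infer_instance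
  rw [← hπ]
  -- the unnormalised function
  obtain ⟨u, hu⟩ : ∃ u : (Link D l → G) → ℝ, u = fun W => cutb (rr W / ρ ^ 2) := ⟨_, rfl⟩
  have hsm0 : IsSmooth (fun W : Link D l → G => rr W / ρ ^ 2) :=
    sm_comp rr_sm (contDiff_id.div_const (ρ ^ 2))
  have husm : IsSmooth u := by rw [hu]; exact sm_comp hsm0 cutb_sm
  have huc : Continuous u := smc husm
  have hinu2 : Integrable (fun W => u W ^ 2) π := by
    rw [hπ]; exact int_of_cont hG μ (huc.pow 2)
  have hcrr : Continuous (rr : (Link D l → G) → ℝ) := smc rr_sm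
  -- doubling
  have hdb : π.real {W | rr W ≤ ρ ^ 2} ≤ d * π.real {W | rr W ≤ ρ ^ 2 / 4} := by
    have h1 := doubling π (iw (N := N) (G := G)) iw_inv ρ hρ
    have h2 : {h : Link D l → G | ‖iw h - iw (1 : Link D l → G)‖ ≤ ρ} = {W | rr W ≤ ρ ^ 2} := by
      ext W
      show ‖iw W - iw (1 : Link D l → G)‖ ≤ ρ ↔ rr W ≤ ρ ^ 2
      rw [← iw_rr, sq_le_sq₀ (norm_nonneg _) hρ.le]
    have h3 : {h : Link D l → G | ‖iw h - iw (1 : Link D l → G)‖ ≤ ρ / 2} = {W | rr W ≤ ρ ^ 2 / 4} := by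
      ext W
      show ‖iw W - iw (1 : Link D l → G)‖ ≤ ρ / 2 ↔ rr W ≤ ρ ^ 2 / 4
      rw [← iw_rr, ← sq_le_sq₀ (norm_nonneg _) (half_pos hρ).le, div_pow]
      norm_num
    rw [h2, h3, ← hd] at h1
    unfold Measure.real
    have h4 := ENNReal.toReal_mono (ENNReal.mul_ne_top (ENNReal.natCast_ne_top d)
      (measure_ne_top π _)) h1
    rwa [ENNReal.toReal_mul, ENNReal.toReal_natCast] at h4
  -- lower bound of the norm
  have hm4 : MeasurableSet {W : Link D l → G | rr W ≤ ρ ^ 2 / 4} :=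
    (isClosed_le hcrr continuous_const).measurableSet
  have hm1 : MeasurableSet {W : Link D l → G | rr W ≤ ρ ^ 2} :=
    (isClosed_le hcrr continuous_const).measurableSet
  obtain ⟨Z, hZ⟩ : ∃ Z, Z = ∫ W, u W ^ 2 ∂π := ⟨_, rfl⟩
  have hZ1 : π.real {W | rr W ≤ ρ ^ 2 / 4} ≤ Z := by
    rw [hZ, ← integral_indicator_one hm4]
    refine integral_mono ((integrable_const _).indicator hm4) hinu2 fun W => ?_
    by_cases h : W ∈ {W : Link D l → G | rr W ≤ ρ ^ 2 / 4}
    · rw [indicator_of_mem h]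
      have h1 : u W = 1 := by
        rw [hu]
        refine cutb_one ?_
        rw [div_le_iff₀ (by positivity)]
        have h2 : rr W ≤ ρ ^ 2 / 4 := h
        nlinarith [sq_nonneg ρ]
      show (1 : ℝ) ≤ u W ^ 2
      rw [h1]; norm_num
    · rw [indicator_of_notMem h]
      exact sq_nonneg _
  have hZ0 : 0 < Z := by
    rw [hZ]
    refine Continuous.integral_pos_of_hasCompactSupport_nonneg_nonzero (x := 1) (huc.pow 2)
      (HasCompactSupport.of_compactSpace _) (fun _ => sq_nonneg _) ?_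
    have h1 : rr (1 : Link D l → G) = 0 := by
      rw [rr_eq]
      refine Finset.sum_eq_zero fun e _ => ?_
      rw [Pi.one_apply, mt_one, sub_self, norm_zero]
      norm_num
    have h2 : u 1 = 1 := by
      rw [hu]
      show cutb (rr 1 / ρ ^ 2) = 1
      rw [h1, zero_div]
      exact cutb_one (by norm_num)
    rw [h2]; norm_num
  -- derivative
  have hdu : ∀ e a W, dlink B e a u W ^ 2 ≤
      {W : Link D l → G | rr W ≤ ρ ^ 2}.indicator (fun _ => 4 * C ^ 2 / ρ ^ 2) W := by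
    intro e a W
    have h1 : dlink B e a u W = deriv cutb (rr W / ρ ^ 2) * (dlink B e a rr W / ρ ^ 2) := by
      rw [hu, dlink_comp B e a hsm0 cutb_sm]
      congr 1
      have h2 : (fun W : Link D l → G => rr W / ρ ^ 2) = fun W => (ρ ^ 2)⁻¹ * rr W := by
        funext W; rw [div_eq_inv_mul]
      rw [h2, dlink_const_mul, div_eq_inv_mul]
    by_cases h : W ∈ {W : Link D l → G | rr W ≤ ρ ^ 2}
    · rw [indicator_of_mem h, h1]
      have h2 : rr W ≤ ρ ^ 2 := h
      have h3 := hC1 (rr W / ρ ^ 2) (div_nonneg (rr_nonneg W) (sq_nonneg _))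
        ((div_le_one (by positivity)).2 h2)
      have h4 := rr_dlink_sq B e a W
      have h5 : deriv cutb (rr W / ρ ^ 2) ^ 2 ≤ C ^ 2 := by
        rw [← sq_abs]; exact pow_le_pow_left₀ (abs_nonneg _) h3 2
      rw [mul_pow, div_pow]
      have h6 : dlink B e a rr W ^ 2 / (ρ ^ 2) ^ 2 ≤ 4 / ρ ^ 2 := by
        rw [div_le_div_iff₀ (by positivity) (by positivity)]
        nlinarith [sq_nonneg ρ]
      calc deriv cutb (rr W / ρ ^ 2) ^ 2 * (dlink B e a rr W ^ 2 / (ρ ^ 2) ^ 2)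
          ≤ C ^ 2 * (4 / ρ ^ 2) := mul_le_mul h5 h6 (by positivity) (by positivity)
        _ = 4 * C ^ 2 / ρ ^ 2 := by ring
    · rw [indicator_of_notMem h, h1]
      have h2 : ρ ^ 2 < rr W := not_le.1 h
      rw [hC2 _ ((one_lt_div (by positivity)).2 h2), zero_mul]
      norm_num
  have hsZ : Real.sqrt Z ^ 2 = Z := Real.sq_sqrt hZ0.le
  have hsZ0 : 0 < Real.sqrt Z := Real.sqrt_pos.2 hZ0
  refine ⟨fun W => (Real.sqrt Z)⁻¹ * u W, sm_mul ⟨fun _ => (Real.sqrt Z)⁻¹, contDiff_const,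
    fun _ => rfl⟩ husm, ?_, ?_, ?_⟩
  · intro W hW e
    have h1 : u W ≠ 0 := fun h => hW (by
      show (Real.sqrt Z)⁻¹ * u W = 0
      rw [h, mul_zero])
    have h2 : rr W < ρ ^ 2 := by
      by_contra hcon
      apply h1
      rw [hu]
      exact cutb_zero ((one_le_div (by positivity)).2 (not_lt.1 hcon))
    have h3 := rr_ge W e
    exact (sq_le_sq₀ (norm_nonneg _) hρ.le).1 (h3.trans h2.le)
  · have h1 : ∀ W, ((Real.sqrt Z)⁻¹ * u W) ^ 2 = Z⁻¹ * u W ^ 2 := fun W => by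
      rw [mul_pow, inv_pow, hsZ]
    simp only [h1]
    rw [integral_const_mul, ← hZ, inv_mul_cancel₀ hZ0.ne']
  · intro e a
    have h1 : ∀ W, dlink B e a (fun W => (Real.sqrt Z)⁻¹ * u W) W ^ 2 =
        Z⁻¹ * dlink B e a u W ^ 2 := fun W => by
      rw [dlink_const_mul, mul_pow, inv_pow, hsZ]
    simp only [h1]
    rw [integral_const_mul]
    have h2 : ∫ W, dlink B e a u W ^ 2 ∂π ≤
        4 * C ^ 2 / ρ ^ 2 * π.real {W | rr W ≤ ρ ^ 2} := by
      have h3 : ∫ W, {W : Link D l → G | rr W ≤ ρ ^ 2}.indicator (fun _ => 4 * C ^ 2 / ρ ^ 2) W ∂π =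
          4 * C ^ 2 / ρ ^ 2 * π.real {W | rr W ≤ ρ ^ 2} := by
        rw [integral_indicator_const _ hm1, smul_eq_mul, mul_comm]
      rw [← h3]
      refine integral_mono ?_ ((integrable_const _).indicator hm1) fun W => hdu e a W
      rw [hπ]
      exact int_of_cont hG μ ((smc (dlink_sm B e a u husm)).pow 2)
    have h4 : 4 * C ^ 2 / ρ ^ 2 * π.real {W | rr W ≤ ρ ^ 2} ≤ 4 * C ^ 2 / ρ ^ 2 * (d * Z) := by
      refine mul_le_mul_of_nonneg_left (hdb.trans ?_) (by positivity)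
      exact mul_le_mul_of_nonneg_left hZ1 (Nat.cast_nonneg d)
    calc Z⁻¹ * ∫ W, dlink B e a u W ^ 2 ∂π ≤ Z⁻¹ * (4 * C ^ 2 / ρ ^ 2 * (d * Z)) :=
          mul_le_mul_of_nonneg_left (h2.trans h4) (inv_nonneg.2 hZ0.le)
      _ = 4 * C ^ 2 * d / ρ ^ 2 := by
          field_simp

end

end Pool.Agent.Q176.LU
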