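import Mathlib
import Pool.Agent.Q176.LU.LocB

/-!
# Project LU, lemma LOC: continuous localisation
-/

set_option autoImplicit false

namespace Pool.Agent.Q176.LU

open Pool.Agent.Q77.LU Pool.Agent.H906R3
open MeasureTheory Matrix Set Filter Topology
open scoped ContDiff Matrix.Norms.Frobenius

noncomputable section

variable {N n D l : ℕ} {G : Subgroup (UU N)} [NeZero l]

lemma sm_tr {b : (Link D l → G) → ℝ} (hb : IsSmooth b) (V : Link D l → G) :
    IsSmooth (fun U => b (U * V⁻¹)) := by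
  obtain ⟨f, hf, h⟩ := hb
  refine ⟨fun M => f (fun e => M e * (mt (V e))ᴴ), ?_, fun U => ?_⟩
  · refine hf.comp (contDiff_pi.2 fun e => ?_)
    exact (contDiff_apply ℝ (Mt N) e).mul contDiff_const
  · show b (U * V⁻¹) = _
    rw [h]
    rfl

omit [NeZero l] in
lemma dlink_tr (B : LieBasis G n) (e : Link D l) (a : Fin n) (b : (Link D l → G) → ℝ)
    (V U : Link D l → G) :
    dlink B e a (fun U => b (U * V⁻¹)) U = dlink B e a b (U * V⁻¹) := by
  unfold dlink
  congr 1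
  funext t
  show b (Function.update U e (B.ex a t * U e) * V⁻¹) =
    b (Function.update (U * V⁻¹) e (B.ex a t * (U * V⁻¹) e))
  refine congrArg b (funext fun e' => ?_)
  by_cases h : e' = e
  · subst h
    rw [Pi.mul_apply, Function.update_self, Function.update_self, Pi.mul_apply, mul_assoc]
  · rw [Pi.mul_apply, Function.update_of_ne h, Function.update_of_ne h, Pi.mul_apply]


lemma conv_int (hG : IsClosed (G : Set (UU N))) [MeasurableSpace G] [BorelSpace G]
    (μ : Measure G) [IsProbabilityMeasure μ] {Φ Ψ : (Link D l → G) → ℝ} (h1 : Continuous Φ)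
    (h2 : Continuous Ψ) : Integrable (Function.uncurry fun V U => Φ U * Ψ (U * V⁻¹))
      ((Measure.pi fun _ : Link D l => μ).prod (Measure.pi fun _ : Link D l => μ)) := by
  have := compG hG
  refine Continuous.integrable_of_hasCompactSupport ?_ (HasCompactSupport.of_compactSpace _)
  exact (h1.comp continuous_snd).mul (h2.comp (continuous_snd.mul continuous_fst.inv))

lemma conv_eq (hG : IsClosed (G : Set (UU N))) [MeasurableSpace G] [BorelSpace G]
    (μ : Measure G) [IsProbabilityMeasure μ] [μ.IsHaarMeasure] {Φ Ψ : (Link D l → G) → ℝ}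
    (h1 : Continuous Φ) (h2 : Continuous Ψ) :
    ∫ V, ∫ U, Φ U * Ψ (U * V⁻¹) ∂(Measure.pi fun _ : Link D l => μ)
      ∂(Measure.pi fun _ : Link D l => μ) =
    (∫ U, Φ U ∂(Measure.pi fun _ : Link D l => μ)) *
      ∫ U, Ψ U ∂(Measure.pi fun _ : Link D l => μ) := by
  have := compG hG
  have := inv_invt μ
  rw [integral_integral_swap (conv_int hG μ h1 h2), ← integral_mul_const]
  refine integral_congr_ae (Eventually.of_forall fun U => ?_)
  show ∫ V, Φ U * Ψ (U * V⁻¹) ∂(Measure.pi fun _ : Link D l => μ) = _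
  rw [integral_const_mul]
  congr 1
  have h3 := integral_div_left_eq_self Ψ (Measure.pi fun _ : Link D l => μ) U
  simpa only [div_eq_mul_inv] using h3

lemma conv_int1 (hG : IsClosed (G : Set (UU N))) [MeasurableSpace G] [BorelSpace G]
    (μ : Measure G) [IsProbabilityMeasure μ] {Φ Ψ : (Link D l → G) → ℝ} (h1 : Continuous Φ)
    (h2 : Continuous Ψ) :
    Integrable (fun V => ∫ U, Φ U * Ψ (U * V⁻¹) ∂(Measure.pi fun _ : Link D l => μ))
      (Measure.pi fun _ : Link D l => μ) :=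
  (conv_int hG μ h1 h2).integral_prod_left

lemma conv_int2 (hG : IsClosed (G : Set (UU N))) [MeasurableSpace G] [BorelSpace G]
    (μ : Measure G) [IsProbabilityMeasure μ] {Φ Ψ : (Link D l → G) → ℝ} (h1 : Continuous Φ)
    (h2 : Continuous Ψ) (V : Link D l → G) :
    Integrable (fun U => Φ U * Ψ (U * V⁻¹)) (Measure.pi fun _ : Link D l => μ) :=
  int_of_cont hG μ (h1.mul (h2.comp (continuous_id.mul continuous_const)))

/-- uniform continuity -/
lemma unif (hG : IsClosed (G : Set (UU N))) {h : (Link D l → G) → ℝ} (hc : Continuous h)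
    {w0 : ℝ} (hw0 : 0 < w0) : ∃ ρ : ℝ, 0 < ρ ∧ ∀ U V : Link D l → G,
      (∀ e, ‖mt (U e) - mt (V e)‖ ≤ ρ) → |h U - h V| ≤ w0 := by
  have := compG hG
  obtain ⟨s, hs⟩ : ∃ s : Set ((Link D l → G) × (Link D l → G)),
    s = {p | w0 ≤ |h p.1 - h p.2|} := ⟨_, rfl⟩
  have hsc : IsCompact s := by
    rw [hs]
    refine IsClosed.isCompact (isClosed_le continuous_const ?_)
    exact ((hc.comp continuous_fst).sub (hc.comp continuous_snd)).abs
  obtain ⟨k, hk⟩ : ∃ k : (Link D l → G) × (Link D l → G) → ℝ,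
    k = fun p : (Link D l → G) × (Link D l → G) => ∑ e, ‖mt (p.1 e) - mt (p.2 e)‖ := ⟨_, rfl⟩
  have hkc : Continuous k := by
    rw [hk]
    refine continuous_finsetSum _ fun e _ => ?_
    refine Continuous.norm (Continuous.sub ?_ ?_)
    · exact cont_mt.comp ((continuous_apply e).comp continuous_fst)
    · exact cont_mt.comp ((continuous_apply e).comp continuous_snd)
  rcases s.eq_empty_or_nonempty with he | hne
  · refine ⟨1, one_pos, fun U V _ => ?_⟩
    by_contra hcon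
    have h1 : (U, V) ∈ s := by
      rw [hs]; exact (not_le.1 hcon).le
    rw [he] at h1
    exact h1
  · obtain ⟨p, hp, hmin⟩ := hsc.exists_isMinOn hne hkc.continuousOn
    have hpos : 0 < k p := by
      have h0 : 0 ≤ k p := by
        rw [hk]; exact Finset.sum_nonneg fun e _ => norm_nonneg _
      rcases h0.eq_or_lt with h0 | h0
      · exfalso
        have h1 : ∀ e, p.1 e = p.2 e := by
          intro e
          have h2 : ∑ e, ‖mt (p.1 e) - mt (p.2 e)‖ = 0 := by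
            have h3 : k p = ∑ e, ‖mt (p.1 e) - mt (p.2 e)‖ := by rw [hk]
            rw [← h3, ← h0]
          have h4 := (Finset.sum_eq_zero_iff_of_nonneg (fun e _ => norm_nonneg _)).1 h2 e
            (Finset.mem_univ e)
          have h5 := sub_eq_zero.1 (norm_eq_zero.1 h4)
          exact Subtype.ext (Subtype.ext h5)
        have h6 : p.1 = p.2 := funext h1
        rw [hs] at hp
        have h7 : w0 ≤ |h p.1 - h p.2| := hp
        rw [h6, sub_self, abs_zero] at h7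
        linarith
      · exact h0
    obtain ⟨m, hm⟩ : ∃ m : ℝ, m = (Fintype.card (Link D l) : ℝ) + 1 := ⟨_, rfl⟩
    have hm0 : 0 < m := by rw [hm]; positivity
    refine ⟨k p / m, div_pos hpos hm0, fun U V hUV => ?_⟩
    by_contra hcon
    have h1 : (U, V) ∈ s := by
      rw [hs]; exact (not_le.1 hcon).le
    have h2 : k p ≤ k (U, V) := hmin h1
    have h3 : k (U, V) ≤ (m - 1) * (k p / m) := by
      have h4 : k (U, V) = ∑ e, ‖mt (U e) - mt (V e)‖ := by rw [hk]
      rw [h4]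
      calc ∑ e, ‖mt (U e) - mt (V e)‖ ≤ ∑ _e : Link D l, k p / m :=
            Finset.sum_le_sum fun e _ => hUV e
        _ = (m - 1) * (k p / m) := by
            rw [Finset.sum_const, nsmul_eq_mul, hm, add_sub_cancel_right]
            rfl
    have h5 : (m - 1) * (k p / m) = k p - k p / m := by field_simp
    have h6 : 0 < k p / m := div_pos hpos hm0
    linarith

lemma int_dlink (hG : IsClosed (G : Set (UU N))) (B : LieBasis G n) [MeasurableSpace G]
    [BorelSpace G] (μ : Measure G) [IsProbabilityMeasure μ] [μ.IsHaarMeasure] (e : Link D l)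
    (a : Fin n) {F : (Link D l → G) → ℝ} (hF : IsSmooth F) :
    ∫ U, dlink B e a F U ∂(Measure.pi fun _ : Link D l => μ) = 0 := by
  have := compG hG
  have h1 := YM.I_D_zero (L := ld B) μ (e, a) (⟨F, hF⟩ : YM.Sm (ld B) (Link D l))
  rw [YM.I_apply] at h1
  rw [← h1]
  exact integral_congr_ae (Eventually.of_forall fun U => dlink_eq B e a F hF U)

/-- Continuous localisation formula. -/
lemma avg (hG : IsClosed (G : Set (UU N))) (B : LieBasis G n) [MeasurableSpace G]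
    [BorelSpace G] (μ : Measure G) [IsProbabilityMeasure μ] [μ.IsHaarMeasure]
    (hmag : Continuous (fun U : Link D l → G => magnetic U)) {b F : (Link D l → G) → ℝ}
    (hb : IsSmooth b) (hF : IsSmooth F)
    (hb1 : ∫ W, b W ^ 2 ∂(Measure.pi fun _ : Link D l => μ) = 1) (g : ℝ) :
    Integrable (fun V => energy B μ g (fun U => b (U * V⁻¹) * F U))
      (Measure.pi fun _ : Link D l => μ) ∧
    ∫ V, energy B μ g (fun U => b (U * V⁻¹) * F U) ∂(Measure.pi fun _ : Link D l => μ) =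
      energy B μ g F + g ^ 2 / 2 *
        (∑ e, ∑ a, ∫ W, dlink B e a b W ^ 2 ∂(Measure.pi fun _ : Link D l => μ)) *
        ∫ U, F U ^ 2 ∂(Measure.pi fun _ : Link D l => μ) := by
  have hbc := smc hb
  have hFc := smc hF
  have hdb : ∀ e a, Continuous (dlink B e a b) := fun e a => smc (dlink_sm B e a b hb)
  have hdF : ∀ e a, Continuous (dlink B e a F) := fun e a => smc (dlink_sm B e a F hF)
  obtain ⟨π, hπ⟩ : ∃ π : Measure (Link D l → G), π = Measure.pi fun _ : Link D l => μ :=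
    ⟨_, rfl⟩
  have hE : ∀ V, energy B μ g (fun U => b (U * V⁻¹) * F U) =
      g ^ 2 / 2 * (∑ e, ∑ a,
        ((∫ U, dlink B e a F U ^ 2 * (fun W => b W ^ 2) (U * V⁻¹) ∂π) +
        (∫ U, (2 * F U * dlink B e a F U) * (fun W => b W * dlink B e a b W) (U * V⁻¹) ∂π) +
        ∫ U, F U ^ 2 * (fun W => dlink B e a b W ^ 2) (U * V⁻¹) ∂π)) +
      1 / g ^ 2 * ∫ U, (magnetic U * F U ^ 2) * (fun W => b W ^ 2) (U * V⁻¹) ∂π := by
    intro V
    unfold energy
    rw [hπ]
    congr 1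
    · congr 1
      refine Finset.sum_congr rfl fun e _ => Finset.sum_congr rfl fun a _ => ?_
      rw [← integral_add, ← integral_add]
      · refine integral_congr_ae (Eventually.of_forall fun U => ?_)
        show dlink B e a (fun U => b (U * V⁻¹) * F U) U ^ 2 = dlink B e a F U ^ 2 *
          b (U * V⁻¹) ^ 2 + 2 * F U * dlink B e a F U * (b (U * V⁻¹) *
          dlink B e a b (U * V⁻¹)) + F U ^ 2 * dlink B e a b (U * V⁻¹) ^ 2
        rw [dlink_mul B e a _ _ (sm_tr hb V) hF, dlink_tr]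
        ring
      · exact (conv_int2 hG μ ((hdF e a).pow 2) (hbc.pow 2) V).add
          (conv_int2 hG μ ((continuous_const.mul hFc).mul (hdF e a)) (hbc.mul (hdb e a)) V)
      · exact conv_int2 hG μ (hFc.pow 2) ((hdb e a).pow 2) V
      · exact conv_int2 hG μ ((hdF e a).pow 2) (hbc.pow 2) V
      · exact conv_int2 hG μ ((continuous_const.mul hFc).mul (hdF e a)) (hbc.mul (hdb e a)) V
    · congr 1
      refine integral_congr_ae (Eventually.of_forall fun U => ?_)
      show magnetic U * (b (U * V⁻¹) * F U) ^ 2 = magnetic U * F U ^ 2 * b (U * V⁻¹) ^ 2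
      ring
  have i1 : ∀ e a, Integrable (fun V => ∫ U, dlink B e a F U ^ 2 *
      (fun W => b W ^ 2) (U * V⁻¹) ∂π) π := fun e a => by
    rw [hπ]; exact conv_int1 hG μ ((hdF e a).pow 2) (hbc.pow 2)
  have i2 : ∀ e a, Integrable (fun V => ∫ U, (2 * F U * dlink B e a F U) *
      (fun W => b W * dlink B e a b W) (U * V⁻¹) ∂π) π := fun e a => by
    rw [hπ]; exact conv_int1 hG μ ((continuous_const.mul hFc).mul (hdF e a)) (hbc.mul (hdb e a))
  have i3 : ∀ e a, Integrable (fun V => ∫ U, F U ^ 2 *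
      (fun W => dlink B e a b W ^ 2) (U * V⁻¹) ∂π) π := fun e a => by
    rw [hπ]; exact conv_int1 hG μ (hFc.pow 2) ((hdb e a).pow 2)
  have i4 : Integrable (fun V => ∫ U, (magnetic U * F U ^ 2) *
      (fun W => b W ^ 2) (U * V⁻¹) ∂π) π := by
    rw [hπ]; exact conv_int1 hG μ (hmag.mul (hFc.pow 2)) (hbc.pow 2)
  have i5 : ∀ e a, Integrable (fun V =>
      (∫ U, dlink B e a F U ^ 2 * (fun W => b W ^ 2) (U * V⁻¹) ∂π) +
        (∫ U, (2 * F U * dlink B e a F U) * (fun W => b W * dlink B e a b W) (U * V⁻¹) ∂π) +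
        ∫ U, F U ^ 2 * (fun W => dlink B e a b W ^ 2) (U * V⁻¹) ∂π) π :=
    fun e a => ((i1 e a).add (i2 e a)).add (i3 e a)
  have i6 : Integrable (fun V => ∑ e, ∑ a,
        ((∫ U, dlink B e a F U ^ 2 * (fun W => b W ^ 2) (U * V⁻¹) ∂π) +
        (∫ U, (2 * F U * dlink B e a F U) * (fun W => b W * dlink B e a b W) (U * V⁻¹) ∂π) +
        ∫ U, F U ^ 2 * (fun W => dlink B e a b W ^ 2) (U * V⁻¹) ∂π)) π :=
    integrable_finsetSum _ fun e _ => integrable_finsetSum _ fun a _ => i5 e a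
  rw [← hπ] at hb1 ⊢
  simp only [hE]
  refine ⟨(i6.const_mul _).add (i4.const_mul _), ?_⟩
  rw [integral_add (i6.const_mul _) (i4.const_mul _), integral_const_mul, integral_const_mul,
    integral_finsetSum _ fun e _ => integrable_finsetSum _ fun a _ => i5 e a]
  have hin : ∀ e, ∫ V, ∑ a,
        ((∫ U, dlink B e a F U ^ 2 * (fun W => b W ^ 2) (U * V⁻¹) ∂π) +
        (∫ U, (2 * F U * dlink B e a F U) * (fun W => b W * dlink B e a b W) (U * V⁻¹) ∂π) +
        ∫ U, F U ^ 2 * (fun W => dlink B e a b W ^ 2) (U * V⁻¹) ∂π) ∂π =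
      ∑ a, ((∫ U, dlink B e a F U ^ 2 ∂π) +
        (∫ W, dlink B e a b W ^ 2 ∂π) * ∫ U, F U ^ 2 ∂π) := by
    intro e
    rw [integral_finsetSum _ fun a _ => i5 e a]
    refine Finset.sum_congr rfl fun a _ => ?_
    have i12 : Integrable (fun V => (∫ U, dlink B e a F U ^ 2 * (fun W => b W ^ 2) (U * V⁻¹) ∂π) +
        ∫ U, (2 * F U * dlink B e a F U) * (fun W => b W * dlink B e a b W) (U * V⁻¹) ∂π) π :=
      (i1 e a).add (i2 e a)
    rw [integral_add i12 (i3 e a), integral_add (i1 e a) (i2 e a)]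
    have e1 : ∫ V, ∫ U, dlink B e a F U ^ 2 * (fun W => b W ^ 2) (U * V⁻¹) ∂π ∂π =
        (∫ U, dlink B e a F U ^ 2 ∂π) * ∫ W, b W ^ 2 ∂π := by
      rw [hπ]; exact conv_eq hG μ ((hdF e a).pow 2) (hbc.pow 2)
    have e2 : ∫ V, ∫ U, (2 * F U * dlink B e a F U) *
        (fun W => b W * dlink B e a b W) (U * V⁻¹) ∂π ∂π =
        (∫ U, 2 * F U * dlink B e a F U ∂π) * ∫ W, b W * dlink B e a b W ∂π := by
      rw [hπ]
      exact conv_eq hG μ ((continuous_const.mul hFc).mul (hdF e a)) (hbc.mul (hdb e a))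
    have e3 : ∫ V, ∫ U, F U ^ 2 * (fun W => dlink B e a b W ^ 2) (U * V⁻¹) ∂π ∂π =
        (∫ U, F U ^ 2 ∂π) * ∫ W, dlink B e a b W ^ 2 ∂π := by
      rw [hπ]; exact conv_eq hG μ (hFc.pow 2) ((hdb e a).pow 2)
    have e4 : ∫ W, b W * dlink B e a b W ∂π = 0 := by
      have h1 := int_dlink hG B μ e a (sm_mul hb hb)
      rw [← hπ] at h1
      have h2 : ∫ U, dlink B e a (fun U => b U * b U) U ∂π =
          ∫ W, 2 * (b W * dlink B e a b W) ∂π := by
        refine integral_congr_ae (Eventually.of_forall fun U => ?_)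
        show dlink B e a (fun U => b U * b U) U = 2 * (b U * dlink B e a b U)
        rw [dlink_mul B e a b b hb hb]
        ring
      rw [h2, integral_const_mul] at h1
      linarith
    rw [e1, e2, e3, e4, hb1]
    ring
  rw [Finset.sum_congr rfl fun e _ => hin e]
  have e5 : ∫ V, ∫ U, (magnetic U * F U ^ 2) * (fun W => b W ^ 2) (U * V⁻¹) ∂π ∂π =
      (∫ U, magnetic U * F U ^ 2 ∂π) * ∫ W, b W ^ 2 ∂π := by
    rw [hπ]; exact conv_eq hG μ (hmag.mul (hFc.pow 2)) (hbc.pow 2)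
  rw [e5, hb1, mul_one]
  unfold energy
  rw [← hπ]
  simp only [Finset.sum_add_distrib]
  rw [mul_add]
  simp only [mul_assoc, Finset.sum_mul]
  ring

lemma rp_tendsto {p : ℝ} (hp : 0 < p) (c : ℝ) :
    Tendsto (fun g : ℝ => c * g ^ p) (𝓝[>] 0) (𝓝 0) := by
  have h1 := (Real.continuousAt_rpow_const 0 p (Or.inr hp.le)).tendsto
  rw [Real.zero_rpow hp.ne'] at h1
  have h2 := (h1.mono_left nhdsWithin_le_nhds : Tendsto (fun g : ℝ => g ^ p) (𝓝[>] 0) (𝓝 0))
  simpa using h2.const_mul c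

theorem t_LOC' (h1 : S_LOCV) (h4 : S_TSC) (h5 : S_HC) : S_LOC := by
  intro N n D l _ G hG B _ _ μ _ _ ε hε
  obtain ⟨K, g1, hK, hg1, hloc⟩ := h1 N n D l G hG B μ
  obtain ⟨hc1, hc2, hc3, -⟩ := h5 N n D l G hG B
  obtain ⟨K', hK', hb⟩ := exists_b (l := l) (D := D) hG B μ
  obtain ⟨h, hh⟩ : ∃ h : (Link D l → G) → ℝ, h = fun U => 1 / 2 * tsq (hess B U) := ⟨_, rfl⟩
  have hhc : Continuous h := by
    rw [hh]
    refine continuous_const.mul ?_
    exact (h4 (Link D l × Fin n)).comp_continuous hc1 hc2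
  obtain ⟨ρ0, hρ0, hu⟩ := unif hG hhc (w0 := ε / 3) (by linarith)
  obtain ⟨m, hm⟩ : ∃ m : ℝ, m = (Fintype.card (Link D l) : ℝ) * n := ⟨_, rfl⟩
  have hev : ∀ᶠ g in 𝓝[>] (0 : ℝ), g < g1 ∧ 1 * g ^ (3 / 5 : ℝ) < ρ0 ∧
      K * g ^ (1 / 5 : ℝ) < ε / 3 ∧ (m * K' / 2) * g ^ (4 / 5 : ℝ) < ε / 3 := by
    have e1 : ∀ᶠ g in 𝓝[>] (0 : ℝ), g < g1 :=
      (Iio_mem_nhds hg1 |> fun h => mem_nhdsWithin_of_mem_nhds h)
    have e2 := (rp_tendsto (p := 3 / 5) (by norm_num) 1).eventually (gt_mem_nhds hρ0)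
    have e3 := (rp_tendsto (p := 1 / 5) (by norm_num) K).eventually
      (gt_mem_nhds (by linarith : (0 : ℝ) < ε / 3))
    have e4 := (rp_tendsto (p := 4 / 5) (by norm_num) (m * K' / 2)).eventually
      (gt_mem_nhds (by linarith : (0 : ℝ) < ε / 3))
    filter_upwards [e1, e2, e3, e4] with g a1 a2 a3 a4
    exact ⟨a1, a2, a3, a4⟩
  obtain ⟨g0, hg0, hsub⟩ := (mem_nhdsGT_iff_exists_Ioo_subset).1 hev
  refine ⟨g0, hg0, fun g hg hgg F hF => ?_⟩
  obtain ⟨hgg1, hg2, hg3, hg4⟩ := hsub ⟨hg, hgg⟩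
  rw [one_mul] at hg2
  obtain ⟨ρ, hρe⟩ : ∃ ρ : ℝ, ρ = g ^ (3 / 5 : ℝ) := ⟨_, rfl⟩
  have hρ : 0 < ρ := by rw [hρe]; exact Real.rpow_pos_of_pos hg _
  obtain ⟨b, hbs, hbsupp, hb1, hbd⟩ := hb ρ hρ
  obtain ⟨ia, av⟩ := avg hG B μ (smc hc3) hbs hF hb1 g
  have hbc := smc hbs
  have hFc := smc hF
  obtain ⟨κ, hκ⟩ : ∃ κ : ℝ, κ = ε / 3 + K * g ^ (1 / 5 : ℝ) := ⟨_, rfl⟩
  have hΦ : Continuous (fun U => (h U - κ) * F U ^ 2) :=
    (hhc.sub continuous_const).mul (hFc.pow 2)
  have hpt : ∀ V, ∫ U, ((h U - κ) * F U ^ 2) * (fun W => b W ^ 2) (U * V⁻¹)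
      ∂(Measure.pi fun _ : Link D l => μ) ≤ energy B μ g (fun U => b (U * V⁻¹) * F U) := by
    intro V
    have hclose : ∀ U, b (U * V⁻¹) ≠ 0 → ∀ e, ‖mt (U e) - mt (V e)‖ ≤ ρ := by
      intro U hU e
      have h6 := hbsupp _ hU e
      have h7 : mt ((U * V⁻¹) e) - 1 = (mt (U e) - mt (V e)) * mt (V e)⁻¹ := by
        rw [sub_mul, Pi.mul_apply, Pi.inv_apply, mt_mul, mt_inv, mt_unit]
      rwa [h7, norm_right] at h6
    have h6 := hloc g hg hgg1 V (fun U => b (U * V⁻¹) * F U) (sm_mul (sm_tr hbs V) hF)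
      (fun U hU e => by
        rw [← hρe]
        exact hclose U (left_ne_zero_of_mul hU) e)
    refine le_trans ?_ h6
    rw [← integral_const_mul]
    refine integral_mono (conv_int2 hG μ hΦ (hbc.pow 2) V) ?_ fun U => ?_
    · refine int_of_cont hG μ (continuous_const.mul (((hbc.comp
        (continuous_id.mul continuous_const)).mul hFc).pow 2))
    · show ((h U - κ) * F U ^ 2) * b (U * V⁻¹) ^ 2 ≤
        (1 / 2 * tsq (hess B V) - K * g ^ (1 / 5 : ℝ)) * (b (U * V⁻¹) * F U) ^ 2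
      by_cases hz : b (U * V⁻¹) = 0
      · rw [hz]; simp
      · have h7 := hu U V fun e => (hclose U hz e).trans (by rw [hρe]; exact hg2.le)
        have h8 : h V = 1 / 2 * tsq (hess B V) := by rw [hh]
        rw [← h8]
        have h9 : h U - κ ≤ h V - K * g ^ (1 / 5 : ℝ) := by
          rw [hκ]
          have := (abs_le.1 h7).2
          linarith
        calc (h U - κ) * F U ^ 2 * b (U * V⁻¹) ^ 2 = (h U - κ) * (b (U * V⁻¹) * F U) ^ 2 := by ring
          _ ≤ _ := mul_le_mul_of_nonneg_right h9 (sq_nonneg _)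
  have hb2 : Continuous (fun W => b W ^ 2) := hbc.pow 2
  have h10 := integral_mono (conv_int1 hG μ hΦ hb2) ia hpt
  rw [conv_eq hG μ hΦ hb2, hb1, mul_one, av] at h10
  -- bound of the localisation error
  obtain ⟨q, hq⟩ : ∃ q, q = ∫ U, F U ^ 2 ∂(Measure.pi fun _ : Link D l => μ) := ⟨_, rfl⟩
  have hq0 : 0 ≤ q := by rw [hq]; exact integral_nonneg fun U => sq_nonneg _
  have h11 : ∑ e, ∑ a, ∫ W, dlink B e a b W ^ 2 ∂(Measure.pi fun _ : Link D l => μ) ≤
      m * (K' / ρ ^ 2) := by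
    calc ∑ e, ∑ a, ∫ W, dlink B e a b W ^ 2 ∂(Measure.pi fun _ : Link D l => μ)
        ≤ ∑ _e : Link D l, ∑ _a : Fin n, K' / ρ ^ 2 :=
          Finset.sum_le_sum fun e _ => Finset.sum_le_sum fun a _ => hbd e a
      _ = m * (K' / ρ ^ 2) := by
          rw [Finset.sum_const, Finset.sum_const, Finset.card_univ, Finset.card_univ,
            Fintype.card_fin, nsmul_eq_mul, nsmul_eq_mul, hm, mul_assoc]
  have h12 : g ^ 2 / ρ ^ 2 = g ^ (4 / 5 : ℝ) := by
    rw [hρe, ← Real.rpow_natCast (g ^ (3 / 5 : ℝ)) 2, ← Real.rpow_mul hg.le,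
      ← Real.rpow_natCast g 2, ← Real.rpow_sub hg]
    norm_num
  have h13 : g ^ 2 / 2 * (∑ e, ∑ a, ∫ W, dlink B e a b W ^ 2
      ∂(Measure.pi fun _ : Link D l => μ)) ≤ ε / 3 := by
    calc g ^ 2 / 2 * (∑ e, ∑ a, ∫ W, dlink B e a b W ^ 2 ∂(Measure.pi fun _ : Link D l => μ))
        ≤ g ^ 2 / 2 * (m * (K' / ρ ^ 2)) := mul_le_mul_of_nonneg_left h11 (by positivity)
      _ = m * K' / 2 * (g ^ 2 / ρ ^ 2) := by ring
      _ = m * K' / 2 * g ^ (4 / 5 : ℝ) := by rw [h12]
      _ ≤ ε / 3 := hg4.le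
  have h14 := mul_le_mul_of_nonneg_right h13 hq0
  rw [← hq] at h10
  have h15 : ∫ U, (1 / 2 * tsq (hess B U) - ε) * F U ^ 2 ∂(Measure.pi fun _ : Link D l => μ) =
      (∫ U, (h U - κ) * F U ^ 2 ∂(Measure.pi fun _ : Link D l => μ)) - (ε - κ) * q := by
    have hΦ2 : Continuous (fun U => (ε - κ) * F U ^ 2) := continuous_const.mul (hFc.pow 2)
    rw [hq, ← integral_const_mul, ← integral_sub (int_of_cont hG μ hΦ)
      (int_of_cont hG μ hΦ2)]
    refine integral_congr_ae (Eventually.of_forall fun U => ?_)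
    show (1 / 2 * tsq (hess B U) - ε) * F U ^ 2 = (h U - κ) * F U ^ 2 - (ε - κ) * F U ^ 2
    rw [hh]
    ring
  rw [h15]
  have h16 : ε / 3 * q ≤ (ε - κ) * q := by
    refine mul_le_mul_of_nonneg_right ?_ hq0
    rw [hκ]
    linarith
  linarith

theorem t_LOC (_h0 : S_EXPG) (h1 : S_LOCV) (_h2 : S_HAAR1) (_h3 : S_LOGC) (h4 : S_TSC)
    (h5 : S_HC) : S_LOC := t_LOC' h1 h4 h5

end

end Pool.Agent.Q176.LU
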